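import Pool.Agent.Q6.BS.Sat
import Pool.Agent.Q6.BS.Prim

/-! Satisfiability of one-variable words in `BS(1,n)` is decidable. -/

set_option autoImplicit false
set_option maxHeartbeats 400000

namespace Pool.Agent.Q6.BS

section

variable {α : Type} [Primcodable α]

theorem pz_add {f g : α → ℤ} (hf : Primrec f) (hg : Primrec g) : Primrec fun a => f a + g a :=
  prim_int_add.comp hf hg
theorem pz_sub {f g : α → ℤ} (hf : Primrec f) (hg : Primrec g) : Primrec fun a => f a - g a :=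
  prim_int_sub.comp hf hg
theorem pz_mul {f g : α → ℤ} (hf : Primrec f) (hg : Primrec g) : Primrec fun a => f a * g a :=
  prim_int_mul.comp hf hg
theorem pz_neg {f : α → ℤ} (hf : Primrec f) : Primrec fun a => -f a :=
  prim_int_neg.comp hf

theorem pn_add {f g : α → ℕ} (hf : Primrec f) (hg : Primrec g) : Primrec fun a => f a + g a :=
  Primrec.nat_add.comp hf hg
theorem pn_mul {f g : α → ℕ} (hf : Primrec f) (hg : Primrec g) : Primrec fun a => f a * g a :=
  Primrec.nat_mul.comp hf hg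

theorem pn_pow2 : Primrec₂ fun (m n : ℕ) => m ^ n := by
  have h1 : Primrec₂ fun (m n : ℕ) => Nat.rec (motive := fun _ => ℕ) 1 (fun _ y => y * m) n :=
    Primrec.nat_rec (f := fun _ : ℕ => 1) (g := fun (m : ℕ) (q : ℕ × ℕ) => q.2 * m)
      (Primrec.const 1) (Primrec.nat_mul.comp (Primrec.snd.comp Primrec.snd) Primrec.fst)
  refine h1.of_eq fun m n => ?_
  induction n with
  | zero => rfl
  | succ n ih => rw [pow_succ, ← ih]

theorem pn_pow {f g : α → ℕ} (hf : Primrec f) (hg : Primrec g) : Primrec fun a => f a ^ g a :=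
  pn_pow2.comp hf hg

theorem pz_pow (n : ℤ) {g : α → ℕ} (hg : Primrec g) : Primrec fun a => n ^ g a := by
  have h1 : Primrec₂ fun (_ : ℤ) (k : ℕ) =>
      Nat.rec (motive := fun _ => ℤ) 1 (fun _ y => y * n) k :=
    Primrec.nat_rec (f := fun _ : ℤ => (1 : ℤ)) (g := fun (_ : ℤ) (q : ℕ × ℤ) => q.2 * n)
      (Primrec.const 1) (pz_mul (Primrec.snd.comp Primrec.snd) (Primrec.const n))
  refine (h1.comp (Primrec.const 0) hg).of_eq fun a => ?_
  induction g a with
  | zero => exact (pow_zero n).symm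
  | succ k ih => rw [pow_succ, ← ih]

theorem pn_dvd {f g : α → ℕ} (hf : Primrec f) (hg : Primrec g) :
    PrimrecPred fun a => f a ∣ g a := by
  refine (Primrec.eq.comp (Primrec.nat_mod.comp hg hf) (Primrec.const 0)).of_eq fun a => ?_
  exact (Nat.dvd_iff_mod_eq_zero).symm

end

theorem prim_step (n : ℤ) : Primrec fun a : ℤ × (((Fin 2 ⊕ Unit) × Bool) × (ℤ × ℤ × ℤ)) =>
    step n a.1 a.2.1 a.2.2 := by
  have hN : Primrec fun a : (ℤ × (((Fin 2 ⊕ Unit) × Bool) × (ℤ × ℤ × ℤ))) => a.1 := Primrec.fst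
  have hS : Primrec fun a : (ℤ × (((Fin 2 ⊕ Unit) × Bool) × (ℤ × ℤ × ℤ))) => a.2.2.1 :=
    Primrec.fst.comp (Primrec.snd.comp Primrec.snd)
  have hP : Primrec fun a : (ℤ × (((Fin 2 ⊕ Unit) × Bool) × (ℤ × ℤ × ℤ))) => a.2.2.2.1 :=
    Primrec.fst.comp (Primrec.snd.comp (Primrec.snd.comp Primrec.snd))
  have hR : Primrec fun a : (ℤ × (((Fin 2 ⊕ Unit) × Bool) × (ℤ × ℤ × ℤ))) => a.2.2.2.2 :=
    Primrec.snd.comp (Primrec.snd.comp (Primrec.snd.comp Primrec.snd))
  have hb : Primrec fun a : (ℤ × (((Fin 2 ⊕ Unit) × Bool) × (ℤ × ℤ × ℤ))) => a.2.1.2 :=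
    Primrec.snd.comp (Primrec.fst.comp Primrec.snd)
  have hc : Primrec fun a : (ℤ × (((Fin 2 ⊕ Unit) × Bool) × (ℤ × ℤ × ℤ))) => a.2.1.1 :=
    Primrec.fst.comp (Primrec.fst.comp Primrec.snd)
  have hn : Primrec fun a : (ℤ × (((Fin 2 ⊕ Unit) × Bool) × (ℤ × ℤ × ℤ))) => n :=
    Primrec.const n
  have hnN := pz_mul hn hN
  have nNS := pz_mul hnN hS
  have nNP := pz_mul hnN hP
  have nNR := pz_mul hnN hR
  have A1 := Primrec.pair nNS (Primrec.pair nNP (pz_add nNS nNR))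
  have A2 := Primrec.pair nNS (Primrec.pair (pz_mul hn nNP) (pz_mul hn nNR))
  have A3 := Primrec.pair nNS (Primrec.pair nNP (pz_add (pz_neg nNS) nNR))
  have A4 := Primrec.pair nNS (Primrec.pair (pz_mul hN hP) (pz_mul hN hR))
  have A5 := Primrec.pair nNS (Primrec.pair (pz_add nNS (pz_mul hN nNP)) (pz_mul hN nNR))
  have A6 := Primrec.pair nNS (Primrec.pair (pz_add (pz_neg (pz_mul hn hS)) (pz_mul hn hP))
    (pz_mul hn hR))
  have hi : PrimrecPred fun p : (ℤ × (((Fin 2 ⊕ Unit) × Bool) × (ℤ × ℤ × ℤ))) × Fin 2 =>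
      p.2 = 0 := Primrec.eq.comp Primrec.snd (Primrec.const 0)
  have B1 := Primrec.ite hi (A1.comp Primrec.fst) (A2.comp Primrec.fst)
  have B2 := Primrec.ite hi (A3.comp Primrec.fst) (A4.comp Primrec.fst)
  have B3 := Primrec.cond (hb.comp Primrec.fst) B1 B2
  have B4 := Primrec.cond hb A5 A6
  refine (Primrec.sumCasesOn hc B3.to₂ (B4.comp Primrec.fst).to₂).of_eq fun a => ?_
  obtain ⟨N, ⟨c, b⟩, S, P, R⟩ := a
  rcases c with i | i <;> rcases b with _ | _
  · by_cases hi : i = 0 <;> simp [step, hi]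
  · by_cases hi : i = 0 <;> simp [step, hi]
  · simp [step]
  · simp [step]

theorem prim_run (n : ℤ) : Primrec fun a : ℕ × Wd => run n (n ^ a.1) a.2 := by
  have h : Primrec₂ fun (a : ℕ × Wd) (s : ((Fin 2 ⊕ Unit) × Bool) × (ℤ × ℤ × ℤ)) =>
      step n (n ^ a.1) s.1 s.2 :=
    ((prim_step n).comp (Primrec.pair (pz_pow n (Primrec.fst.comp Primrec.fst)) Primrec.snd)).to₂
  exact Primrec.list_foldr Primrec.snd (Primrec.const (1, 0, 0)) h

theorem prim_ee : Primrec ee := by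
  have hz : Primrec fun a : Wd × (((Fin 2 ⊕ Unit) × Bool) × (ℤ × ℤ)) => a.2.2 :=
    Primrec.snd.comp Primrec.snd
  have hz1 := Primrec.fst.comp hz
  have hz2 := Primrec.snd.comp hz
  have hb : Primrec fun a : Wd × (((Fin 2 ⊕ Unit) × Bool) × (ℤ × ℤ)) => a.2.1.2 :=
    Primrec.snd.comp (Primrec.fst.comp Primrec.snd)
  have hc : Primrec fun a : Wd × (((Fin 2 ⊕ Unit) × Bool) × (ℤ × ℤ)) => a.2.1.1 :=
    Primrec.fst.comp (Primrec.fst.comp Primrec.snd)
  have hi : PrimrecPred fun p : (Wd × (((Fin 2 ⊕ Unit) × Bool) × (ℤ × ℤ))) × Fin 2 =>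
      p.2 = 0 := Primrec.eq.comp Primrec.snd (Primrec.const 0)
  have C1 := Primrec.pair (Primrec.cond hb (pz_add hz1 (Primrec.const 1))
    (pz_sub hz1 (Primrec.const 1))) hz2
  have C2 := Primrec.pair hz1 (Primrec.cond hb (pz_add hz2 (Primrec.const 1))
    (pz_sub hz2 (Primrec.const 1)))
  have h := Primrec.sumCasesOn hc (Primrec.ite hi (hz.comp Primrec.fst) (C1.comp Primrec.fst)).to₂
    (C2.comp Primrec.fst).to₂
  refine (Primrec.list_foldr (f := fun w : Wd => w) (g := fun _ => ((0 : ℤ), (0 : ℤ)))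
    Primrec.id (Primrec.const _) h.to₂).of_eq fun w => ?_
  unfold ee
  congr 1
  funext c z
  obtain ⟨c, b⟩ := c
  rcases c with i | i <;> rcases b with _ | _
  · by_cases hi : i = 0 <;> simp [hi]
  · by_cases hi : i = 0 <;> simp [hi]
  · simp
  · simp

theorem prim_flp : Primrec flp := by
  refine Primrec.list_map Primrec.id ?_
  exact ((Primrec.dom_finite (fun c : (Fin 2 ⊕ Unit) × Bool => (match c with
    | (Sum.inl i, b) => (Sum.inl i, b)
    | (Sum.inr u, b) => (Sum.inr u, !b) : (Fin 2 ⊕ Unit) × Bool))).comp Primrec.snd).to₂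

theorem prim_chk {n : ℤ} (hn : n ≠ 0) : PrimrecRel fun (m : ℕ) (w : Wd) => Chk n w m := by
  have hr := prim_run n
  have hP := prim_natAbs.comp (Primrec.fst.comp (Primrec.snd.comp hr))
  have hR := prim_natAbs.comp (Primrec.snd.comp (Primrec.snd.comp hr))
  have h1 := pn_dvd hP (pn_mul (pn_pow (Primrec.const n.natAbs) hP) hR)
  have he : Primrec fun a : ℕ × Wd => ee a.2 := prim_ee.comp Primrec.snd
  have hm : Primrec fun a : ℕ × Wd => (a.1 : ℤ) := prim_natCast.comp Primrec.fst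
  have h2 := Primrec.eq.comp (pz_add (Primrec.fst.comp he) (pz_mul (Primrec.snd.comp he) hm))
    (Primrec.const (0 : ℤ))
  refine (h2.and h1).of_eq fun a => ?_
  show _ ↔ Chk n a.2 a.1
  unfold Chk
  rw [dvd_pow_iff hn]

theorem prim_bnd (n : ℤ) : Primrec (bnd n) := by
  have hL : Primrec fun L : ℕ => L := Primrec.id
  have hD := pn_mul (Primrec.const 2) hL
  have hH := pn_pow (Primrec.const (2 * n.natAbs ^ 2)) hL
  have hD1 := pn_add hD (Primrec.const 1)
  have h1 := pn_mul (pn_mul hD hH) (pn_add (Primrec.const 1)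
    (pn_mul (pn_pow (pn_mul (Primrec.const 2) hH) hD1) hH))
  have h2 := pn_add (pn_add (pn_add h1 (pn_mul (Primrec.const 2) (pn_pow hH hD1))) (pn_mul hD hH))
    (Primrec.const 4)
  exact pn_add h2 hL

theorem sat_decidable {n : ℤ} (hn : n ≠ 0) : ComputablePred (Sat n) := by
  have : Fact (n ≠ 0) := ⟨hn⟩
  have h1 : PrimrecRel fun (m : ℕ) (w : Wd) => Chk n w m ∨ Chk n (flp w) m :=
    (prim_chk hn).or ((prim_chk hn).comp Primrec.fst (prim_flp.comp Primrec.snd))
  have h2 := h1.exists_mem_list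
  have h3 : PrimrecPred fun w : Wd => ∃ m ∈ List.range (bnd n w.length + 1),
      Chk n w m ∨ Chk n (flp w) m :=
    h2.comp (Primrec.list_range.comp
      (pn_add ((prim_bnd n).comp Primrec.list_length) (Primrec.const 1))) Primrec.id
  have h4 : PrimrecPred (Sat n) := h3.of_eq fun w => by
    rw [sat_iff']
    simp only [List.mem_range, Nat.lt_succ_iff]
  obtain ⟨d, h5⟩ := h4
  exact ⟨d, h5.to_comp⟩

end Pool.Agent.Q6.BS
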