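import Mathlib

/-! Divisibility of exponential polynomials: `p(n ^ m) ∣ n ^ j * r(n ^ m)`; if it is possible for some
`m`, then for some small `m`. -/

set_option autoImplicit false
set_option maxHeartbeats 400000

open Polynomial

namespace Pool.Agent.Q6.BS

/-- bounded coefficients and degree -/
def Bd (q : ℤ[X]) (h : ℤ) (d : ℕ) : Prop := (∀ i, |q.coeff i| ≤ h) ∧ q.natDegree ≤ d

theorem Bd.mono {q : ℤ[X]} {h h' : ℤ} {d d' : ℕ} (hq : Bd q h d) (hh : h ≤ h') (hd : d ≤ d') :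
    Bd q h' d' := ⟨fun i => (hq.1 i).trans hh, hq.2.trans hd⟩

theorem Bd.nonneg {q : ℤ[X]} {h : ℤ} {d : ℕ} (hq : Bd q h d) : 0 ≤ h :=
  (abs_nonneg _).trans (hq.1 0)

theorem Bd.add {q r : ℤ[X]} {h h' : ℤ} {d : ℕ} (hq : Bd q h d) (hr : Bd r h' d) :
    Bd (q + r) (h + h') d := by
  refine ⟨fun i => ?_, ?_⟩
  · rw [coeff_add]
    exact (abs_add_le _ _).trans (add_le_add (hq.1 i) (hr.1 i))
  · exact (natDegree_add_le _ _).trans (max_le hq.2 hr.2)

theorem Bd.neg {q : ℤ[X]} {h : ℤ} {d : ℕ} (hq : Bd q h d) : Bd (-q) h d := by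
  refine ⟨fun i => ?_, ?_⟩
  · rw [coeff_neg, abs_neg]; exact hq.1 i
  · rw [natDegree_neg]; exact hq.2

theorem Bd.Cmul {q : ℤ[X]} {h : ℤ} {d : ℕ} (c : ℤ) (hq : Bd q h d) : Bd (C c * q) (|c| * h) d := by
  refine ⟨fun i => ?_, ?_⟩
  · rw [coeff_C_mul, abs_mul]
    exact mul_le_mul_of_nonneg_left (hq.1 i) (abs_nonneg _)
  · exact (natDegree_C_mul_le _ _).trans hq.2

theorem Bd.Xmul {q : ℤ[X]} {h : ℤ} {d : ℕ} (hq : Bd q h d) : Bd (X * q) h (d + 1) := by
  refine ⟨fun i => ?_, ?_⟩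
  · cases i with
    | zero => simpa using hq.nonneg
    | succ i => rw [coeff_X_mul]; exact hq.1 i
  · refine (natDegree_mul_le).trans ?_
    have := hq.2
    rw [natDegree_X]; omega

theorem cancel_deg {p r : ℤ[X]} (hp : p ≠ 0) (h0 : r ≠ 0) {e : ℕ}
    (he : r.natDegree = e + p.natDegree) :
    C p.leadingCoeff * r - C r.leadingCoeff * X ^ e * p = 0 ∨
      (C p.leadingCoeff * r - C r.leadingCoeff * X ^ e * p).natDegree < r.natDegree := by
  have hlp : p.leadingCoeff ≠ 0 := leadingCoeff_ne_zero.2 hp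
  have hlr : r.leadingCoeff ≠ 0 := leadingCoeff_ne_zero.2 h0
  by_cases hz : C p.leadingCoeff * r - C r.leadingCoeff * X ^ e * p = 0
  · exact Or.inl hz
  refine Or.inr ?_
  have hd1 : (C p.leadingCoeff * r).degree = r.degree := by
    rw [degree_mul, degree_C hlp, zero_add]
  have hd2 : (C r.leadingCoeff * X ^ e * p).degree = r.degree := by
    rw [degree_mul, degree_mul, degree_C hlr, zero_add, degree_X_pow,
      degree_eq_natDegree hp, degree_eq_natDegree h0, he]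
    push_cast; rfl
  have hlt := degree_sub_lt_left (hd1.trans hd2.symm) (mul_ne_zero (C_ne_zero.2 hlp) h0) (by
      rw [leadingCoeff_mul, leadingCoeff_mul, leadingCoeff_mul, leadingCoeff_C, leadingCoeff_C,
        leadingCoeff_X_pow]
      ring)
  rw [hd1] at hlt
  exact natDegree_lt_natDegree hz hlt

theorem cancel_coeff {p r : ℤ[X]} {H H' : ℤ} (hH : ∀ i, |p.coeff i| ≤ H)
    (hH' : ∀ i, |r.coeff i| ≤ H') (e i : ℕ) :
    |(C p.leadingCoeff * r - C r.leadingCoeff * X ^ e * p).coeff i| ≤ 2 * H * H' := by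
  have hH0 : 0 ≤ H := (abs_nonneg _).trans (hH 0)
  have hH'0 : 0 ≤ H' := (abs_nonneg _).trans (hH' 0)
  rw [coeff_sub, coeff_C_mul, mul_assoc, coeff_C_mul]
  have h1 : |p.leadingCoeff * r.coeff i| ≤ H * H' := by
    rw [abs_mul]
    exact mul_le_mul (hH _) (hH' _) (abs_nonneg _) hH0
  have h3 : |(X ^ e * p).coeff i| ≤ H := by
    rw [coeff_X_pow_mul']
    split_ifs
    · exact hH _
    · rw [abs_zero]; exact hH0
  have h2 : |r.leadingCoeff * (X ^ e * p).coeff i| ≤ H' * H := by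
    rw [abs_mul]
    exact mul_le_mul (hH' _) h3 (abs_nonneg _) hH'0
  generalize p.leadingCoeff * r.coeff i = u at h1 ⊢
  generalize r.leadingCoeff * (X ^ e * p).coeff i = v at h2 ⊢
  calc |u - v| ≤ |u| + |v| := abs_sub _ _
    _ ≤ H * H' + H' * H := add_le_add h1 h2
    _ = 2 * H * H' := by ring

/-- pseudo-division with bounds -/
theorem pdiv (p : ℤ[X]) (hp : p ≠ 0) (H : ℤ) (hH : ∀ i, |p.coeff i| ≤ H) (hH1 : 1 ≤ H) :
    ∀ (D : ℕ) (r : ℤ[X]) (H' : ℤ), r.natDegree < D → (∀ i, |r.coeff i| ≤ H') →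
    ∃ (c : ℤ) (a s : ℤ[X]), c ≠ 0 ∧ |c| ≤ H ^ D ∧ C c * r = p * a + s ∧
      (s = 0 ∨ s.natDegree < p.natDegree) ∧ ∀ i, |s.coeff i| ≤ (2 * H) ^ D * H' := by
  intro D
  induction D with
  | zero => intro r H' h; exact absurd h (Nat.not_lt_zero _)
  | succ D ih =>
    intro r H' hr hH'
    have hH'0 : 0 ≤ H' := (abs_nonneg _).trans (hH' 0)
    have hHp : ∀ k : ℕ, 1 ≤ H ^ k := fun k => one_le_pow₀ hH1
    have h2Hp : ∀ k : ℕ, 1 ≤ (2 * H) ^ k := fun k => one_le_pow₀ (by linarith)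
    have hbig : ∀ i, |r.coeff i| ≤ (2 * H) ^ (D + 1) * H' := fun i =>
      (hH' i).trans (le_mul_of_one_le_left hH'0 (h2Hp _))
    by_cases h0 : r = 0
    · refine ⟨1, 0, 0, one_ne_zero, by simpa using hHp (D + 1), by simp [h0], Or.inl rfl, ?_⟩
      intro i
      simp only [coeff_zero, abs_zero]
      exact mul_nonneg (zero_le_one.trans (h2Hp _)) hH'0
    rcases lt_or_ge r.natDegree p.natDegree with hlt | hge
    · exact ⟨1, 0, r, one_ne_zero, by simpa using hHp (D + 1), by simp, Or.inr hlt, hbig⟩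
    obtain ⟨e, he⟩ : ∃ e, r.natDegree = e + p.natDegree := ⟨r.natDegree - p.natDegree, by omega⟩
    have hlp : p.leadingCoeff ≠ 0 := leadingCoeff_ne_zero.2 hp
    have hlr : r.leadingCoeff ≠ 0 := leadingCoeff_ne_zero.2 h0
    have hdeg := cancel_deg hp h0 he
    have hc1 := cancel_coeff hH hH' e
    obtain ⟨r1, hr1⟩ : ∃ r1, r1 = C p.leadingCoeff * r - C r.leadingCoeff * X ^ e * p := ⟨_, rfl⟩
    rw [← hr1] at hdeg hc1
    have hlp1 : |p.leadingCoeff| ≤ H := hH _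
    rcases hdeg with hz | hlt
    · refine ⟨p.leadingCoeff, C r.leadingCoeff * X ^ e, 0, hlp, ?_, ?_, Or.inl rfl, ?_⟩
      · exact hlp1.trans (by
          rw [pow_succ]; exact le_mul_of_one_le_left (by linarith) (hHp _))
      · rw [hr1, sub_eq_zero] at hz
        rw [hz]; ring
      · intro i
        simp only [coeff_zero, abs_zero]
        exact mul_nonneg (zero_le_one.trans (h2Hp _)) hH'0
    · obtain ⟨c, a, s, hc, hcb, hs, hsd, hsb⟩ := ih r1 (2 * H * H') (by omega) hc1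
      refine ⟨c * p.leadingCoeff, a + C c * C r.leadingCoeff * X ^ e, s, mul_ne_zero hc hlp, ?_, ?_,
        hsd, ?_⟩
      · rw [abs_mul, pow_succ]
        exact mul_le_mul hcb hlp1 (abs_nonneg _) (zero_le_one.trans (hHp _))
      · have h3 : C p.leadingCoeff * r = r1 + C r.leadingCoeff * X ^ e * p := by rw [hr1]; ring
        rw [C_mul, mul_assoc, h3, mul_add, hs]; ring
      · intro i
        refine (hsb i).trans (le_of_eq ?_)
        rw [pow_succ]; ring

theorem eval_le {s : ℤ[X]} {h : ℤ} {e : ℕ} (hs : ∀ i, |s.coeff i| ≤ h) (he : s.natDegree < e)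
    {N : ℤ} (hN : 1 ≤ |N|) : |s.eval N| ≤ e * h * |N| ^ (e - 1) := by
  have hh : 0 ≤ h := (abs_nonneg _).trans (hs 0)
  rw [eval_eq_sum_range' he]
  refine (Finset.abs_sum_le_sum_abs _ _).trans ?_
  have : ∀ i ∈ Finset.range e, |s.coeff i * N ^ i| ≤ h * |N| ^ (e - 1) := by
    intro i hi
    rw [abs_mul, abs_pow]
    have hi' : i < e := Finset.mem_range.1 hi
    exact mul_le_mul (hs i) (pow_le_pow_right₀ hN (by omega)) (by positivity) hh
  refine (Finset.sum_le_card_nsmul _ _ _ this).trans ?_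
  rw [Finset.card_range, nsmul_eq_mul]
  linarith

theorem le_eval {p : ℤ[X]} {h : ℤ} {e : ℕ} (hp : p ≠ 0) (hb : ∀ i, |p.coeff i| ≤ h)
    (he : p.natDegree = e + 1) {N : ℤ} (hN : 1 ≤ |N|) :
    |N| ^ e * (|N| - (e + 1) * h) ≤ |p.eval N| := by
  have hh : 0 ≤ h := (abs_nonneg _).trans (hb 0)
  have h1 : p.eval N = (∑ i ∈ Finset.range (e + 1), p.coeff i * N ^ i) +
      p.coeff (e + 1) * N ^ (e + 1) := by
    rw [eval_eq_sum_range, he, Finset.sum_range_succ]
  have h2 : |∑ i ∈ Finset.range (e + 1), p.coeff i * N ^ i| ≤ (e + 1) * h * |N| ^ e := by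
    refine (Finset.abs_sum_le_sum_abs _ _).trans ?_
    have : ∀ i ∈ Finset.range (e + 1), |p.coeff i * N ^ i| ≤ h * |N| ^ e := by
      intro i hi
      rw [abs_mul, abs_pow]
      have hi' : i < e + 1 := Finset.mem_range.1 hi
      exact mul_le_mul (hb i) (pow_le_pow_right₀ hN (by omega)) (by positivity) hh
    refine (Finset.sum_le_card_nsmul _ _ _ this).trans ?_
    rw [Finset.card_range, nsmul_eq_mul]
    push_cast
    linarith
  have h3 : 1 ≤ |p.coeff (e + 1)| := by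
    have : p.coeff (e + 1) ≠ 0 := by
      rw [← he]; exact leadingCoeff_ne_zero.2 hp
    exact Int.one_le_abs this
  have h4 : |N| ^ (e + 1) ≤ |p.coeff (e + 1) * N ^ (e + 1)| := by
    rw [abs_mul, abs_pow]
    exact le_mul_of_one_le_left (by positivity) h3
  have h5 : |p.coeff (e + 1) * N ^ (e + 1)| ≤ |p.eval N| +
      |∑ i ∈ Finset.range (e + 1), p.coeff i * N ^ i| := by
    have : p.coeff (e + 1) * N ^ (e + 1) = p.eval N -
      ∑ i ∈ Finset.range (e + 1), p.coeff i * N ^ i := by rw [h1]; ring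
    rw [this]
    exact abs_sub _ _
  rw [pow_succ] at h4
  nlinarith

theorem eval_ne_zero {p : ℤ[X]} {h : ℤ} {D : ℕ} (hp : p ≠ 0) (hb : Bd p h D)
    {N : ℤ} (hN : 1 ≤ |N|) (hN2 : D * h < |N|) : p.eval N ≠ 0 := by
  have hh : 0 ≤ h := hb.nonneg
  rcases Nat.eq_zero_or_pos p.natDegree with h0 | h0
  · rw [natDegree_eq_zero] at h0
    obtain ⟨c, rfl⟩ := h0
    rw [eval_C]
    rintro rfl
    exact hp (by simp)
  · obtain ⟨e, he⟩ : ∃ e, p.natDegree = e + 1 := ⟨p.natDegree - 1, by omega⟩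
    have h1 := le_eval hp hb.1 he hN
    have h2 : ((e : ℤ) + 1) * h ≤ D * h := by
      have : ((e + 1 : ℕ) : ℤ) ≤ D := by exact_mod_cast he ▸ hb.2
      push_cast at this
      exact mul_le_mul_of_nonneg_right this hh
    have h3 : 0 < |N| ^ e * (|N| - (e + 1) * h) := mul_pos (by positivity) (by linarith)
    intro h4
    rw [h4, abs_zero] at h1
    linarith

/-- the part of `A` which divides a power of `n` divides `p₀` -/
theorem npart {n A p0 b : ℤ} {m j : ℕ} (hA : n ^ m ∣ A - p0) (hp0 : p0 ≠ 0)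
    (hm : |p0| < 2 ^ m) (h : A ∣ n ^ j * b) : A ∣ p0 * b := by
  have hd : Nat.gcd A.natAbs (n ^ j).natAbs ∣ p0.natAbs := by
    rw [Nat.dvd_iff_prime_pow_dvd_dvd]
    intro l k hl hk
    have hkA : l ^ k ∣ A.natAbs := hk.trans (Nat.gcd_dvd_left _ _)
    have hkn : l ^ k ∣ (n ^ j).natAbs := hk.trans (Nat.gcd_dvd_right _ _)
    rcases Nat.eq_zero_or_pos k with h0 | h0
    · subst h0; simp
    have hln : (l : ℤ) ∣ n := by
      have h1 : l ∣ (n ^ j).natAbs := (dvd_pow_self l h0.ne').trans hkn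
      rw [Int.natAbs_pow] at h1
      exact Int.natCast_dvd.2 (hl.dvd_of_dvd_pow h1)
    have key : ∀ i, i ≤ k → i ≤ m → ((l : ℤ) ^ i) ∣ p0 := by
      intro i hik him
      have h1 : (l : ℤ) ^ i ∣ A := by
        have : (l ^ i) ∣ A.natAbs := (pow_dvd_pow l hik).trans hkA
        have := Int.natCast_dvd.2 this
        push_cast at this
        exact this
      have h2 : (l : ℤ) ^ i ∣ n ^ m := (pow_dvd_pow_of_dvd hln i).trans (pow_dvd_pow n him)
      have h3 : (l : ℤ) ^ i ∣ A - p0 := h2.trans hA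
      have := dvd_sub h1 h3
      rwa [sub_sub_cancel] at this
    rcases le_or_gt k m with hkm | hkm
    · have := key k le_rfl hkm
      have h4 : ((l ^ k : ℕ) : ℤ) ∣ p0 := by push_cast; exact this
      exact Int.natCast_dvd.1 h4
    · exfalso
      have h1 := key m hkm.le le_rfl
      have h2 : |(l : ℤ) ^ m| ≤ |p0| := Int.le_of_dvd (abs_pos.2 hp0) ((abs_dvd_abs _ _).2 h1)
      have h3 : (2 : ℤ) ^ m ≤ (l : ℤ) ^ m :=
        pow_le_pow_left₀ (by norm_num) (by exact_mod_cast hl.two_le) _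
      have h4 : (l : ℤ) ^ m ≤ |(l : ℤ) ^ m| := le_abs_self _
      linarith
  rw [← Int.natAbs_dvd_natAbs] at h ⊢
  rw [Int.natAbs_mul] at h ⊢
  have h1 : A.natAbs ∣ Nat.gcd (A.natAbs * b.natAbs) ((n ^ j).natAbs * b.natAbs) :=
    Nat.dvd_gcd (Dvd.intro _ rfl) h
  rw [Nat.gcd_mul_right] at h1
  exact h1.trans (mul_dvd_mul_right hd _)

end Pool.Agent.Q6.BS
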