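import Pool.Agent.Q6.BS.Words

/-! The Baumslag-Solitar groups `BS(1,n)`: affine representation, normal form (after the starting file
`Pool/Agent/H395R6/BA1.lean`, which treats `n = 2`), and the values of words. -/

set_option autoImplicit false
set_option maxHeartbeats 400000

namespace Pool.Agent.Q6.BS

/-- affine maps `y ↦ n ^ m y + x` -/
@[ext] structure Aff (n : ℤ) where
  x : ℚ
  m : ℤ

namespace Aff

variable {n : ℤ}

instance : Mul (Aff n) := ⟨fun g h => ⟨g.x + (n : ℚ) ^ g.m * h.x, g.m + h.m⟩⟩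
instance : One (Aff n) := ⟨⟨0, 0⟩⟩
instance : Inv (Aff n) := ⟨fun g => ⟨-((n : ℚ) ^ (-g.m) * g.x), -g.m⟩⟩

@[simp] theorem mul_x (g h : Aff n) : (g * h).x = g.x + (n : ℚ) ^ g.m * h.x := rfl
@[simp] theorem mul_m (g h : Aff n) : (g * h).m = g.m + h.m := rfl
@[simp] theorem one_x : (1 : Aff n).x = 0 := rfl
@[simp] theorem one_m : (1 : Aff n).m = 0 := rfl
@[simp] theorem inv_x (g : Aff n) : (g⁻¹).x = -((n : ℚ) ^ (-g.m) * g.x) := rfl
@[simp] theorem inv_m (g : Aff n) : (g⁻¹).m = -g.m := rfl

instance [hn : Fact (n ≠ 0)] : Group (Aff n) := Group.ofLeftAxioms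
  (by
    have hn' : (n : ℚ) ≠ 0 := by exact_mod_cast hn.out
    intro a b c
    ext
    · simp only [mul_x, mul_m]
      rw [zpow_add₀ hn']
      ring
    · simp only [mul_m]; ring)
  (by
    intro a
    ext
    · simp
    · simp)
  (by
    intro a
    ext
    · simp
    · simp)

end Aff

/-- the relator `t a t⁻¹ a⁻ⁿ` of `BS(1,n)`; `a` is generator `0` and `t` is generator `1` -/
def rel (n : ℤ) : FreeGroup (Fin 2) :=
  FreeGroup.of 1 * FreeGroup.of 0 * (FreeGroup.of 1)⁻¹ * (FreeGroup.of 0 ^ n)⁻¹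

/-- the Baumslag-Solitar group `BS(1,n)` -/
abbrev G (n : ℤ) : Type := PresentedGroup ({rel n} : Set (FreeGroup (Fin 2)))

variable {n : ℤ}

def ga (n : ℤ) : G n := PresentedGroup.of 0
def gt (n : ℤ) : G n := PresentedGroup.of 1

theorem rel_eq : gt n * ga n * (gt n)⁻¹ = ga n ^ n := by
  have h : (PresentedGroup.mk ({rel n} : Set (FreeGroup (Fin 2)))) (rel n) = 1 :=
    PresentedGroup.one_of_mem (Set.mem_singleton _)
  rw [rel, map_mul, map_mul, map_mul, map_inv, map_inv, map_zpow] at h
  have e : gt n * ga n * (gt n)⁻¹ * (ga n ^ n)⁻¹ = 1 := h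
  exact mul_inv_eq_one.1 e

/-- a homomorphism out of `BS(1,n)` -/
def lft {H : Type*} [Group H] (a t : H) (h : t * a * t⁻¹ = a ^ n) : G n →* H :=
  PresentedGroup.toGroup (f := fun i : Fin 2 => if i = 0 then a else t) (by
    intro r hr
    rw [Set.mem_singleton_iff] at hr
    subst hr
    simp only [rel, map_mul, map_inv, map_zpow, FreeGroup.lift_apply_of]
    simp [h])

theorem lft_ga {H : Type*} [Group H] (a t : H) (h : t * a * t⁻¹ = a ^ n) :
    lft a t h (ga n) = a := by
  unfold lft ga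
  rw [PresentedGroup.toGroup.of]
  simp

theorem lft_gt {H : Type*} [Group H] (a t : H) (h : t * a * t⁻¹ = a ^ n) :
    lft a t h (gt n) = t := by
  unfold lft gt
  rw [PresentedGroup.toGroup.of]
  simp

section rho

variable [hn : Fact (n ≠ 0)]

theorem aff_pow (q : ℚ) (k : ℕ) : (⟨q, 0⟩ : Aff n) ^ k = ⟨k * q, 0⟩ := by
  induction k with
  | zero => ext <;> simp
  | succ k ih =>
    rw [pow_succ, ih]
    ext
    · simp; ring
    · simp

theorem aff_zpow (q : ℚ) (k : ℤ) : (⟨q, 0⟩ : Aff n) ^ k = ⟨k * q, 0⟩ := by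
  rcases Int.eq_nat_or_neg k with ⟨k, rfl | rfl⟩
  · rw [zpow_natCast, aff_pow]; simp
  · rw [zpow_neg, zpow_natCast, aff_pow]
    ext <;> simp

theorem aff_tpow (k : ℕ) : (⟨0, 1⟩ : Aff n) ^ k = ⟨0, k⟩ := by
  induction k with
  | zero => ext <;> simp
  | succ k ih =>
    rw [pow_succ, ih]
    ext
    · simp
    · simp

/-- the affine representation -/
def rho (n : ℤ) [hn : Fact (n ≠ 0)] : G n →* Aff n := lft ⟨1, 0⟩ ⟨0, 1⟩ (by
  rw [aff_zpow]
  ext <;> simp)

theorem rho_ga : rho n (ga n) = ⟨1, 0⟩ := lft_ga _ _ _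
theorem rho_gt : rho n (gt n) = ⟨0, 1⟩ := lft_gt _ _ _

end rho

theorem conj_pow (i : ℕ) (l : ℤ) : gt n ^ i * ga n ^ l = ga n ^ (n ^ i * l) * gt n ^ i := by
  induction i generalizing l with
  | zero => simp
  | succ i ih =>
    have h1 : gt n * ga n ^ l = ga n ^ (n * l) * gt n := by
      have : gt n * ga n ^ l * (gt n)⁻¹ = ga n ^ (n * l) := by
        rw [← conj_zpow, rel_eq, ← zpow_mul]
      rw [← this]; group
    rw [pow_succ, mul_assoc, h1, ← mul_assoc, ih, mul_assoc, ← pow_succ]
    congr 2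
    rw [pow_succ]; ring

theorem ga_eq (i : ℕ) (l : ℤ) :
    ga n ^ l = (gt n ^ i)⁻¹ * ga n ^ (n ^ i * l) * gt n ^ i := by
  rw [mul_assoc, ← conj_pow]
  group

/-- normal form -/
theorem normal_form (g : G n) : ∃ (i j : ℕ) (l : ℤ), g = (gt n ^ i)⁻¹ * ga n ^ l * gt n ^ j := by
  have key : ∀ L : List (Fin 2 × Bool), ∃ (i j : ℕ) (l : ℤ),
      (PresentedGroup.mk ({rel n} : Set (FreeGroup (Fin 2)))) (FreeGroup.mk L) =
        (gt n ^ i)⁻¹ * ga n ^ l * gt n ^ j := by
    intro L
    induction L with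
    | nil => exact ⟨0, 0, 0, by simp; rfl⟩
    | cons z L ih =>
      obtain ⟨i, j, l, h⟩ := ih
      obtain ⟨c, b⟩ := z
      have e : (FreeGroup.mk ((c, b) :: L)) = FreeGroup.mk [(c, b)] * FreeGroup.mk L := by
        rw [FreeGroup.mul_mk]; rfl
      rw [e, map_mul, h]
      have hga : (PresentedGroup.mk ({rel n} : Set (FreeGroup (Fin 2)))) (FreeGroup.mk [(0, true)])
        = ga n := rfl
      have hgt : (PresentedGroup.mk ({rel n} : Set (FreeGroup (Fin 2)))) (FreeGroup.mk [(1, true)])
        = gt n := rfl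
      have hga' : (PresentedGroup.mk ({rel n} : Set (FreeGroup (Fin 2))))
        (FreeGroup.mk [(0, false)]) = (ga n)⁻¹ := rfl
      have hgt' : (PresentedGroup.mk ({rel n} : Set (FreeGroup (Fin 2))))
        (FreeGroup.mk [(1, false)]) = (gt n)⁻¹ := rfl
      fin_cases c
      · rcases b with _ | _
        · refine ⟨i, j, -n ^ i + l, ?_⟩
          have e1 := ga_eq (n := n) i (-1)
          rw [zpow_neg_one] at e1
          simp only [Fin.zero_eta, Fin.isValue]
          rw [hga', e1, zpow_add]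
          have : n ^ i * -1 = -n ^ i := by ring
          rw [this]
          group
        · refine ⟨i, j, n ^ i + l, ?_⟩
          have e1 := ga_eq (n := n) i 1
          rw [zpow_one] at e1
          simp only [Fin.zero_eta, Fin.isValue]
          rw [hga]
          have e2 : ∀ Y : G n, ga n * Y = (gt n ^ i)⁻¹ * ga n ^ (n ^ i * 1) * gt n ^ i * Y := by
            intro Y
            rw [← e1]
          rw [e2, zpow_add]
          have : n ^ i * 1 = n ^ i := by ring
          rw [this]
          group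
      · rcases b with _ | _
        · refine ⟨i + 1, j, l, ?_⟩
          simp only [Fin.mk_one, Fin.isValue]
          rw [hgt', pow_succ]
          group
        · simp only [Fin.mk_one, Fin.isValue]
          rw [hgt]
          rcases i with _ | i
          · refine ⟨0, j + 1, n * l, ?_⟩
            have := conj_pow (n := n) 1 l
            simp only [pow_one] at this
            simp only [pow_zero, inv_one, one_mul]
            rw [← mul_assoc, this, pow_succ']
            group
          · refine ⟨i, j, l, ?_⟩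
            rw [pow_succ]
            group
  obtain ⟨w, rfl⟩ := QuotientGroup.mk_surjective g
  obtain ⟨i, j, l, h⟩ := key w.toWord
  rw [FreeGroup.mk_toWord] at h
  exact ⟨i, j, l, h⟩

section rho

variable [hn : Fact (n ≠ 0)]

theorem rho_normal (i j : ℕ) (l : ℤ) : rho n ((gt n ^ i)⁻¹ * ga n ^ l * gt n ^ j) =
    ⟨(l : ℚ) / (n : ℚ) ^ i, (j : ℤ) - i⟩ := by
  rw [map_mul, map_mul, map_inv, map_pow, map_pow, map_zpow, rho_gt, rho_ga, aff_tpow, aff_tpow,
    aff_zpow]
  ext
  · simp [div_eq_inv_mul]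
  · simp; ring

theorem rho_inj : Function.Injective (rho n) := by
  have hn' : (n : ℚ) ≠ 0 := by exact_mod_cast hn.out
  rw [injective_iff_map_eq_one]
  intro g hg
  obtain ⟨i, j, l, rfl⟩ := normal_form g
  rw [rho_normal] at hg
  have h1 := congrArg Aff.x hg
  have h2 := congrArg Aff.m hg
  simp only [Aff.one_x, Aff.one_m] at h1 h2
  have hl : l = 0 := by
    rw [div_eq_zero_iff] at h1
    rcases h1 with h1 | h1
    · exact_mod_cast h1
    · exact absurd h1 (pow_ne_zero _ hn')
  have hij : i = j := by omega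
  subst hl hij
  simp

/-- the value of a word in a group `H` for given `a`, `t`, `x` -/
def vl {H : Type*} [Group H] (a t x : H) (w : Wd) : H :=
  FreeGroup.lift (Sum.elim (fun i : Fin 2 => if i = 0 then a else t) (fun _ : Unit => x))
    (FreeGroup.mk w)

theorem vl_nil {H : Type*} [Group H] (a t x : H) : vl a t x [] = 1 := by
  unfold vl
  rw [FreeGroup.lift_mk]; rfl

theorem vl_cons {H : Type*} [Group H] (a t x : H) (c : (Fin 2 ⊕ Unit) × Bool) (w : Wd) :
    vl a t x (c :: w) = (cond c.2 (Sum.elim (fun i : Fin 2 => if i = 0 then a else t)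
      (fun _ : Unit => x) c.1) (Sum.elim (fun i : Fin 2 => if i = 0 then a else t)
      (fun _ : Unit => x) c.1)⁻¹) * vl a t x w := by
  unfold vl
  rw [FreeGroup.lift_mk, FreeGroup.lift_mk, List.map_cons, List.prod_cons]

theorem vl_map {H K : Type*} [Group H] [Group K] (f : H →* K) (a t x : H) (w : Wd) :
    f (vl a t x w) = vl (f a) (f t) (f x) w := by
  induction w with
  | nil => rw [vl_nil, vl_nil, map_one]
  | cons c w ih =>
    rw [vl_cons, vl_cons, map_mul, ih]
    congr 1
    obtain ⟨c, b⟩ := c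
    rcases c with i | i <;> rcases b with _ | _ <;> by_cases hi : i = 0 <;> simp [hi]

theorem ee_cons (c : (Fin 2 ⊕ Unit) × Bool) (w : Wd) : ee (c :: w) = (match c with
    | (Sum.inl i, b) => if i = 0 then ee w else (if b then (ee w).1 + 1 else (ee w).1 - 1, (ee w).2)
    | (Sum.inr _, b) => ((ee w).1, if b then (ee w).2 + 1 else (ee w).2 - 1)) := rfl

/-- the value of a word at `x = (q, m)` -/
theorem vl_aff (q : ℚ) (m : ℤ) (w : Wd) :
    vl (⟨1, 0⟩ : Aff n) ⟨0, 1⟩ ⟨q, m⟩ w =
      ⟨((run (n : ℚ) ((n : ℚ) ^ m) w).2.1 * q + (run (n : ℚ) ((n : ℚ) ^ m) w).2.2) /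
        (run (n : ℚ) ((n : ℚ) ^ m) w).1, (ee w).1 + (ee w).2 * m⟩ := by
  have hn' : (n : ℚ) ≠ 0 := by exact_mod_cast hn.out
  have hN : (n : ℚ) ^ m ≠ 0 := zpow_ne_zero _ hn'
  have hNi : (n : ℚ) ^ (-m) = ((n : ℚ) ^ m)⁻¹ := zpow_neg _ _
  induction w with
  | nil => rw [vl_nil, run_nil, ee_nil]; ext <;> simp
  | cons c w ih =>
    have hS : (run (n : ℚ) ((n : ℚ) ^ m) w).1 ≠ 0 := by
      rw [run_fst]; exact pow_ne_zero _ (mul_ne_zero hn' hN)
    rw [vl_cons, ih, run_cons, ee_cons]
    generalize run (n : ℚ) ((n : ℚ) ^ m) w = z at hS ⊢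
    obtain ⟨S, P, R⟩ := z
    obtain ⟨e1, e2⟩ := ee w
    simp only at hS ⊢
    obtain ⟨c, b⟩ := c
    generalize hNN : (n : ℚ) ^ m = N at *
    rcases c with i | i <;> rcases b with _ | _
    · by_cases hi : i = 0
      · ext
        · simp [step, hi]; field_simp; ring
        · simp [hi]
      · ext
        · simp [step, hi]; field_simp
        · simp [hi]; ring
    · by_cases hi : i = 0
      · ext
        · simp [step, hi]; field_simp; ring
        · simp [hi]
      · ext
        · simp [step, hi]; field_simp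
        · simp [hi]; ring
    · ext
      · simp [step, hNi]; field_simp; ring
      · simp; ring
    · ext
      · simp [step, hNN]; field_simp; ring
      · simp; ring

end rho

end Pool.Agent.Q6.BS
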