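import Pool.Agent.Q6.BS.Comp

/-! Single equations in one variable over one-relator groups which are cyclic or isomorphic to a
Baumslag-Solitar group `BS(1,n)`, for an arbitrary one-relator presentation. -/

set_option autoImplicit false
set_option maxHeartbeats 400000

namespace Pool.Agent.Q6.BS

/-- one-variable words over `k` generators -/
abbrev Wk (k : ℕ) : Type := List ((Fin k ⊕ Unit) × Bool)

/-- the value of a one-variable word in a group with marked generators `s` -/
def ev {k : ℕ} {H : Type*} [Group H] (s : Fin k → H) (g : H) (w : Wk k) : H :=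
  FreeGroup.lift (Sum.elim s (fun _ : Unit => g)) (FreeGroup.mk w)

theorem ev_nil {k : ℕ} {H : Type*} [Group H] (s : Fin k → H) (g : H) : ev s g [] = 1 := by
  unfold ev
  rw [FreeGroup.lift_mk]; rfl

theorem ev_cons {k : ℕ} {H : Type*} [Group H] (s : Fin k → H) (g : H)
    (c : (Fin k ⊕ Unit) × Bool) (w : Wk k) : ev s g (c :: w) =
      (cond c.2 (Sum.elim s (fun _ : Unit => g) c.1) (Sum.elim s (fun _ : Unit => g) c.1)⁻¹) *
        ev s g w := by
  unfold ev
  rw [FreeGroup.lift_mk, FreeGroup.lift_mk, List.map_cons, List.prod_cons]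

theorem vl_append {H : Type*} [Group H] (a t x : H) (u w : Wd) :
    vl a t x (u ++ w) = vl a t x u * vl a t x w := by
  unfold vl
  rw [← FreeGroup.mul_mk, map_mul]

theorem vl_surj {n : ℤ} (h : G n) : ∃ u : Wd, ∀ x : G n, vl (ga n) (gt n) x u = h := by
  obtain ⟨w, rfl⟩ := QuotientGroup.mk_surjective h
  have key : ∀ L : List (Fin 2 × Bool), ∀ x : G n,
      vl (ga n) (gt n) x (L.map fun c => (Sum.inl c.1, c.2)) =
        (PresentedGroup.mk ({rel n} : Set (FreeGroup (Fin 2)))) (FreeGroup.mk L) := by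
    intro L x
    induction L with
    | nil => rw [List.map_nil, vl_nil]; exact (map_one _).symm
    | cons c L ih =>
      have e : (FreeGroup.mk (c :: L)) = FreeGroup.mk [c] * FreeGroup.mk L := by
        rw [FreeGroup.mul_mk]; rfl
      rw [List.map_cons, vl_cons, ih, e, map_mul]
      congr 1
      obtain ⟨i, b⟩ := c
      fin_cases i <;> rcases b with _ | _ <;> rfl
  refine ⟨w.toWord.map fun c => (Sum.inl c.1, c.2), fun x => ?_⟩
  rw [key, FreeGroup.mk_toWord]
  rfl

theorem dec_of_bs {k : ℕ} {H : Type*} [Group H] (s : Fin k → H) {n : ℤ} (hn : n ≠ 0)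
    (f : H ≃* G n) : ComputablePred fun w : Wk k => ∃ g : H, ev s g w = 1 := by
  have hc : ∀ c : (Fin k ⊕ Unit) × Bool, ∃ u : Wd, ∀ g : H, vl (ga n) (gt n) (f g) u =
      f (cond c.2 (Sum.elim s (fun _ : Unit => g) c.1)
        (Sum.elim s (fun _ : Unit => g) c.1)⁻¹) := by
    rintro ⟨i | i, b⟩
    · rcases b with _ | _
      · obtain ⟨u, hu⟩ := vl_surj (f (s i)⁻¹)
        exact ⟨u, fun g => hu _⟩
      · obtain ⟨u, hu⟩ := vl_surj (f (s i))
        exact ⟨u, fun g => hu _⟩
    · rcases b with _ | _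
      · exact ⟨[(Sum.inr (), false)], fun g => by rw [vl_cons, vl_nil]; simp⟩
      · exact ⟨[(Sum.inr (), true)], fun g => by rw [vl_cons, vl_nil]; simp⟩
  choose tr htr using hc
  have key : ∀ (g : H) (w : Wk k), vl (ga n) (gt n) (f g) (w.flatMap tr) = f (ev s g w) := by
    intro g w
    induction w with
    | nil => rw [List.flatMap_nil, vl_nil, ev_nil, map_one]
    | cons c w ih => rw [List.flatMap_cons, vl_append, ih, htr, ev_cons, map_mul]
  have hp : Primrec fun w : Wk k => w.flatMap tr :=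
    Primrec.list_flatMap Primrec.id ((Primrec.dom_finite tr).comp Primrec.snd).to₂
  obtain ⟨d, hd⟩ := sat_decidable hn
  have h1 : ComputablePred fun w : Wk k => Sat n (w.flatMap tr) :=
    ⟨fun w => d _, hd.comp hp.to_comp⟩
  have e : (fun w : Wk k => ∃ g : H, ev s g w = 1) = fun w : Wk k => Sat n (w.flatMap tr) := by
    funext w
    apply propext
    constructor
    · rintro ⟨g, hg⟩
      exact ⟨f g, by rw [key, hg, map_one]⟩
    · rintro ⟨h, hh⟩
      obtain ⟨g, rfl⟩ := f.surjective h
      rw [key] at hh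
      exact ⟨g, (map_eq_one_iff f f.injective).1 hh⟩
  rw [e]
  exact h1

/-- the exponents in a cyclic group -/
def lin {k : ℕ} (e : Fin k → ℤ) (w : Wk k) : ℤ × ℤ :=
  w.foldr (fun c z => (match c with
    | (Sum.inl i, true) => (e i + z.1, z.2)
    | (Sum.inl i, false) => (-e i + z.1, z.2)
    | (Sum.inr _, true) => (z.1, 1 + z.2)
    | (Sum.inr _, false) => (z.1, -1 + z.2))) (0, 0)

theorem prim_lin {k : ℕ} (e : Fin k → ℤ) : Primrec (lin e) := by
  have h1 : Primrec fun c : (Fin k ⊕ Unit) × Bool => (match c with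
    | (Sum.inl i, true) => (e i, 0)
    | (Sum.inl i, false) => (-e i, 0)
    | (Sum.inr _, true) => (0, 1)
    | (Sum.inr _, false) => (0, -1) : ℤ × ℤ) := Primrec.dom_finite _
  have hz : Primrec fun a : Wk k × (((Fin k ⊕ Unit) × Bool) × (ℤ × ℤ)) => a.2.2 :=
    Primrec.snd.comp Primrec.snd
  have hc : Primrec fun a : Wk k × (((Fin k ⊕ Unit) × Bool) × (ℤ × ℤ)) => a.2.1 :=
    Primrec.fst.comp Primrec.snd
  have h2 := h1.comp hc
  have h3 := Primrec.pair (pz_add (Primrec.fst.comp h2) (Primrec.fst.comp hz))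
    (pz_add (Primrec.snd.comp h2) (Primrec.snd.comp hz))
  refine (Primrec.list_foldr (f := fun w : Wk k => w) (g := fun _ => ((0 : ℤ), (0 : ℤ)))
    Primrec.id (Primrec.const _) h3.to₂).of_eq fun w => ?_
  unfold lin
  congr 1
  funext c z
  obtain ⟨c, b⟩ := c
  rcases c with i | i <;> rcases b with _ | _ <;> simp

theorem ev_cyclic {k : ℕ} {H : Type*} [Group H] (s : Fin k → H) (c : H) (e : Fin k → ℤ)
    (he : ∀ i, s i = c ^ e i) (y : ℤ) (w : Wk k) :
    ev s (c ^ y) w = c ^ ((lin e w).1 + (lin e w).2 * y) := by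
  induction w with
  | nil => rw [ev_nil]; simp [lin]
  | cons l w ih =>
    rw [ev_cons, ih]
    have e1 : lin e (l :: w) = (match l with
      | (Sum.inl i, true) => (e i + (lin e w).1, (lin e w).2)
      | (Sum.inl i, false) => (-e i + (lin e w).1, (lin e w).2)
      | (Sum.inr _, true) => ((lin e w).1, 1 + (lin e w).2)
      | (Sum.inr _, false) => ((lin e w).1, -1 + (lin e w).2)) := rfl
    rw [e1]
    obtain ⟨l, b⟩ := l
    rcases l with i | i <;> rcases b with _ | _
    · simp only [Sum.elim_inl, cond_false, he i, ← zpow_neg, ← zpow_add]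
      congr 1; ring
    · simp only [Sum.elim_inl, cond_true, he i, ← zpow_add]
      congr 1; ring
    · simp only [Sum.elim_inr, cond_false, ← zpow_neg, ← zpow_add]
      congr 1; ring
    · simp only [Sum.elim_inr, cond_true, ← zpow_add]
      congr 1; ring

theorem dec_of_cyclic {k : ℕ} {H : Type*} [Group H] (s : Fin k → H) [hH : IsCyclic H] :
    ComputablePred fun w : Wk k => ∃ g : H, ev s g w = 1 := by
  obtain ⟨c, hc⟩ := hH.exists_generator
  have h1 : ∀ i, ∃ e : ℤ, s i = c ^ e := fun i => by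
    obtain ⟨e, he⟩ := Subgroup.mem_zpowers_iff.1 (hc (s i))
    exact ⟨e, he.symm⟩
  choose e he using h1
  have h2 : ∀ w : Wk k, (∃ g : H, ev s g w = 1) ↔
      ∃ y : ℤ, (orderOf c : ℤ) ∣ (lin e w).1 + (lin e w).2 * y := by
    intro w
    constructor
    · rintro ⟨g, hg⟩
      obtain ⟨y, rfl⟩ := Subgroup.mem_zpowers_iff.1 (hc g)
      rw [ev_cyclic s c e he] at hg
      exact ⟨y, orderOf_dvd_iff_zpow_eq_one.2 hg⟩
    · rintro ⟨y, hy⟩
      exact ⟨c ^ y, by rw [ev_cyclic s c e he]; exact orderOf_dvd_iff_zpow_eq_one.1 hy⟩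
  have hA : Primrec fun w : Wk k => (lin e w).1 := Primrec.fst.comp (prim_lin e)
  have hB : Primrec fun w : Wk k => (lin e w).2 := Primrec.snd.comp (prim_lin e)
  have h3 : PrimrecPred fun w : Wk k => ∃ g : H, ev s g w = 1 := by
    rcases Nat.eq_zero_or_pos (orderOf c) with h0 | h0
    · refine (pn_dvd (prim_natAbs.comp hB) (prim_natAbs.comp hA)).of_eq fun w => ?_
      rw [h2, h0]
      constructor
      · intro h
        obtain ⟨y, hy⟩ := Int.natAbs_dvd_natAbs.1 h
        exact ⟨-y, by rw [hy]; simp⟩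
      · rintro ⟨y, hy⟩
        simp only [Nat.cast_zero, zero_dvd_iff] at hy
        rw [Int.natAbs_dvd_natAbs]
        exact ⟨-y, by linarith⟩
    · have h4 : PrimrecRel fun (y : ℕ) (w : Wk k) =>
          orderOf c ∣ ((lin e w).1 + (lin e w).2 * (y : ℤ)).natAbs :=
        pn_dvd (Primrec.const _) (prim_natAbs.comp (pz_add (hA.comp Primrec.snd)
          (pz_mul (hB.comp Primrec.snd) (prim_natCast.comp Primrec.fst))))
      have h5 : PrimrecPred fun w : Wk k => ∃ y ∈ List.range (orderOf c),
          orderOf c ∣ ((lin e w).1 + (lin e w).2 * (y : ℤ)).natAbs :=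
        h4.exists_mem_list.comp (Primrec.const _) Primrec.id
      refine h5.of_eq fun w => ?_
      rw [h2]
      constructor
      · rintro ⟨y, _, hy⟩
        exact ⟨y, Int.natCast_dvd.2 hy⟩
      · rintro ⟨y, hy⟩
        have h6 : (0 : ℤ) < orderOf c := by exact_mod_cast h0
        have h7 := Int.emod_nonneg y h6.ne'
        have h8 := Int.emod_lt_of_pos y h6
        refine ⟨(y % orderOf c).toNat, ?_, ?_⟩
        · rw [List.mem_range]; omega
        · rw [← Int.natCast_dvd, Int.toNat_of_nonneg h7]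
          have h9 : (orderOf c : ℤ) ∣ y - y % orderOf c := Int.dvd_self_sub_emod
          have h10 := dvd_sub hy (Dvd.dvd.mul_left h9 (lin e w).2)
          have e2 : (lin e w).1 + (lin e w).2 * y - (lin e w).2 * (y - y % orderOf c) =
            (lin e w).1 + (lin e w).2 * (y % orderOf c) := by ring
          rwa [e2] at h10
  obtain ⟨d, h5⟩ := h3
  exact ⟨d, h5.to_comp⟩

end Pool.Agent.Q6.BS
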