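import Pool.Agent.Q6.BS.Grp

/-! A word is satisfiable in `BS(1,n)` if and only if the arithmetical condition holds for it, or for
the word with the variable inverted. -/

set_option autoImplicit false
set_option maxHeartbeats 400000

namespace Pool.Agent.Q6.BS

variable {n : ℤ}

/-- invert the variable -/
def flp (w : Wd) : Wd := w.map (fun c => match c with
  | (Sum.inl i, b) => (Sum.inl i, b)
  | (Sum.inr u, b) => (Sum.inr u, !b))

theorem flp_flp (w : Wd) : flp (flp w) = w := by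
  unfold flp
  rw [List.map_map]
  conv_rhs => rw [← List.map_id w]
  apply List.map_congr_left
  rintro ⟨c, b⟩ _
  rcases c with i | i <;> simp

theorem vl_flp {H : Type*} [Group H] (a t x : H) (w : Wd) :
    vl a t x (flp w) = vl a t x⁻¹ w := by
  induction w with
  | nil => rw [vl_nil]; exact vl_nil _ _ _
  | cons c w ih =>
    have e : flp (c :: w) = (match c with
      | (Sum.inl i, b) => (Sum.inl i, b)
      | (Sum.inr u, b) => (Sum.inr u, !b)) :: flp w := rfl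
    rw [e, vl_cons, vl_cons, ih]
    congr 1
    obtain ⟨c, b⟩ := c
    rcases c with i | i <;> rcases b with _ | _ <;> simp

/-- satisfiability in `BS(1,n)` -/
def Sat (n : ℤ) (w : Wd) : Prop := ∃ g : G n, vl (ga n) (gt n) g w = 1

theorem sat_flp (w : Wd) : Sat n (flp w) ↔ Sat n w := by
  constructor
  · rintro ⟨g, hg⟩
    exact ⟨g⁻¹, by rw [← vl_flp]; exact hg⟩
  · rintro ⟨g, hg⟩
    exact ⟨g⁻¹, by rw [vl_flp, inv_inv]; exact hg⟩

theorem run_cast (n : ℤ) (m : ℕ) (w : Wd) : run (n : ℚ) ((n : ℚ) ^ (m : ℤ)) w =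
    (((run n (n ^ m) w).1 : ℚ), ((run n (n ^ m) w).2.1 : ℚ), ((run n (n ^ m) w).2.2 : ℚ)) := by
  have := run_map (Int.castRingHom ℚ) n (n ^ m) w
  simpa using this

section

variable [hn : Fact (n ≠ 0)]

theorem vl_one_iff (m : ℕ) (i : ℕ) (l : ℤ) (w : Wd) :
    vl (ga n) (gt n) ((gt n ^ i)⁻¹ * ga n ^ l * gt n ^ (m + i)) w = 1 ↔
      (ee w).1 + (ee w).2 * m = 0 ∧
      (run n (n ^ m) w).2.1 * l + n ^ i * (run n (n ^ m) w).2.2 = 0 := by
  have hn' : (n : ℚ) ≠ 0 := by exact_mod_cast hn.out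
  rw [← rho_inj.eq_iff, map_one, vl_map, rho_ga, rho_gt, rho_normal]
  have e : ((m + i : ℕ) : ℤ) - i = m := by push_cast; ring
  rw [e, vl_aff, run_cast]
  have hS : ((run n (n ^ m) w).1 : ℚ) ≠ 0 := by
    rw [run_fst]
    push_cast
    exact pow_ne_zero _ (mul_ne_zero hn' (pow_ne_zero _ hn'))
  rw [Aff.ext_iff]
  simp only [Aff.one_x, Aff.one_m]
  rw [div_eq_zero_iff, or_iff_left hS, and_comm]
  refine and_congr Iff.rfl ?_
  have h1 : ((run n (n ^ m) w).2.1 : ℚ) * ((l : ℚ) / (n : ℚ) ^ i) + ((run n (n ^ m) w).2.2 : ℚ) =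
      (((run n (n ^ m) w).2.1 * l + n ^ i * (run n (n ^ m) w).2.2 : ℤ) : ℚ) / (n : ℚ) ^ i := by
    push_cast
    field_simp
  rw [h1, div_eq_zero_iff, or_iff_left (pow_ne_zero _ hn')]
  exact_mod_cast Iff.rfl

theorem sat_of_chk {w : Wd} {m : ℕ} (h : Chk n w m) : Sat n w := by
  obtain ⟨h1, j, l, hl⟩ := h
  refine ⟨_, (vl_one_iff m j (-l) w).2 ⟨h1, ?_⟩⟩
  rw [hl]; ring

theorem sat_iff (w : Wd) : Sat n w ↔ (∃ m, Chk n w m) ∨ ∃ m, Chk n (flp w) m := by
  constructor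
  · rintro ⟨g, hg⟩
    obtain ⟨i, k, l, rfl⟩ := normal_form g
    have key : ∀ (i m : ℕ) (l : ℤ) (w : Wd),
        vl (ga n) (gt n) ((gt n ^ i)⁻¹ * ga n ^ l * gt n ^ (m + i)) w = 1 → ∃ m, Chk n w m := by
      intro i m l w h
      rw [vl_one_iff] at h
      exact ⟨m, h.1, i, -l, by linarith [h.2]⟩
    rcases le_total i k with hik | hik
    · left
      obtain ⟨m, rfl⟩ := Nat.exists_eq_add_of_le' hik
      exact key i m l w hg
    · right
      obtain ⟨m, rfl⟩ := Nat.exists_eq_add_of_le' hik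
      refine key k m (-l) (flp w) ?_
      rw [vl_flp]
      rw [← hg]
      congr 1
      group
  · rintro (⟨m, h⟩ | ⟨m, h⟩)
    · exact sat_of_chk h
    · exact (sat_flp w).1 (sat_of_chk h)

theorem sat_iff' (w : Wd) : Sat n w ↔
    ∃ m ≤ bnd n w.length, Chk n w m ∨ Chk n (flp w) m := by
  have hl : (flp w).length = w.length := List.length_map _
  rw [sat_iff]
  constructor
  · rintro (⟨m, h⟩ | ⟨m, h⟩)
    · obtain ⟨m', h1, h2⟩ := chk_small hn.out h
      exact ⟨m', h1, Or.inl h2⟩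
    · obtain ⟨m', h1, h2⟩ := chk_small hn.out h
      exact ⟨m', hl ▸ h1, Or.inr h2⟩
  · rintro ⟨m, _, h | h⟩
    · exact Or.inl ⟨m, h⟩
    · exact Or.inr ⟨m, h⟩

end

/-- divisibility up to powers of `n` is decidable -/
theorem dvd_pow_iff {n : ℤ} (hn : n ≠ 0) (P R : ℤ) : (∃ j : ℕ, P ∣ n ^ j * R) ↔
    P.natAbs ∣ n.natAbs ^ P.natAbs * R.natAbs := by
  constructor
  · rintro ⟨j, hj⟩
    by_cases hP : P = 0
    · subst hP
      rw [zero_dvd_iff, mul_eq_zero] at hj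
      rw [Int.natAbs_zero, pow_zero, one_mul, zero_dvd_iff, Int.natAbs_eq_zero]
      exact hj.resolve_left (pow_ne_zero _ hn)
    · have hP0 : 0 < P.natAbs := Int.natAbs_pos.2 hP
      rw [← Int.natAbs_dvd_natAbs, Int.natAbs_mul, Int.natAbs_pow] at hj
      have h1 : P.natAbs ∣ Nat.gcd P.natAbs (n.natAbs ^ j) * R.natAbs := by
        rw [← Nat.gcd_mul_right]
        exact Nat.dvd_gcd (Dvd.intro _ rfl) hj
      refine h1.trans (mul_dvd_mul_right ?_ _)
      rw [Nat.dvd_iff_prime_pow_dvd_dvd]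
      intro l k hl hk
      have h2 : l ^ k ∣ P.natAbs := hk.trans (Nat.gcd_dvd_left _ _)
      have h3 : l ^ k ∣ n.natAbs ^ j := hk.trans (Nat.gcd_dvd_right _ _)
      rcases Nat.eq_zero_or_pos k with h0 | h0
      · subst h0; simp
      have h4 : l ∣ n.natAbs := hl.dvd_of_dvd_pow ((dvd_pow_self l h0.ne').trans h3)
      have h5 : k ≤ P.natAbs := by
        have h6 : l ^ k ≤ P.natAbs := Nat.le_of_dvd hP0 h2
        exact (Nat.lt_pow_self hl.one_lt).le.trans h6
      exact (pow_dvd_pow_of_dvd h4 k).trans (pow_dvd_pow _ h5)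
  · intro h
    refine ⟨P.natAbs, ?_⟩
    rw [← Int.natAbs_dvd_natAbs, Int.natAbs_mul, Int.natAbs_pow]
    exact h

end Pool.Agent.Q6.BS
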