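import Pool.Agent.Q6.BS.Core

/-! If `p(n ^ m) ∣ n ^ j * r(n ^ m)` is possible, then with a small `m`. -/

set_option autoImplicit false
set_option maxHeartbeats 400000

open Polynomial

namespace Pool.Agent.Q6.BS

/-- solvability at `m` -/
def Sv (n : ℤ) (p r : ℤ[X]) (m : ℕ) : Prop := ∃ j : ℕ, p.eval (n ^ m) ∣ n ^ j * r.eval (n ^ m)

/-- the bound -/
def BB (D H : ℕ) : ℕ := D * H * (1 + (2 * H) ^ (D + 1) * H) + 2 * H ^ (D + 1) + D * H + 4

theorem lt_abs_pow {n : ℤ} (hn : 2 ≤ |n|) (m : ℕ) : (m : ℤ) < |n ^ m| := by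
  rw [abs_pow]
  calc (m : ℤ) < 2 ^ m := by exact_mod_cast Nat.lt_two_pow_self
    _ ≤ |n| ^ m := pow_le_pow_left₀ (by norm_num) hn _

/-- eventual periodicity of powers -/
theorem period (n c : ℤ) (hc : c ≠ 0) : ∃ u T : ℕ, u ≤ c.natAbs ∧ 1 ≤ T ∧ T ≤ c.natAbs ∧
    ∀ m k, u ≤ m → c ∣ n ^ (m + T * k) - n ^ m := by
  have hc0 : 0 < c.natAbs := Int.natAbs_pos.2 hc
  have : NeZero c.natAbs := ⟨hc0.ne'⟩
  obtain ⟨x, y, hxy, hf⟩ := Fintype.exists_ne_map_eq_of_card_lt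
    (fun i : Fin (c.natAbs + 1) => ((n : ZMod c.natAbs)) ^ (i : ℕ)) (by
      rw [ZMod.card, Fintype.card_fin]; omega)
  have main : ∀ x y : ℕ, x < y → y ≤ c.natAbs →
      (n : ZMod c.natAbs) ^ x = (n : ZMod c.natAbs) ^ y →
      ∃ u T : ℕ, u ≤ c.natAbs ∧ 1 ≤ T ∧ T ≤ c.natAbs ∧
        ∀ m k, u ≤ m → c ∣ n ^ (m + T * k) - n ^ m := by
    intro x y hlt hy he
    refine ⟨x, y - x, by omega, by omega, by omega, ?_⟩
    intro m k hm
    have step : ∀ m, x ≤ m → (n : ZMod c.natAbs) ^ (m + (y - x)) = (n : ZMod c.natAbs) ^ m := by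
      intro m hm
      have e1 : m + (y - x) = (m - x) + y := by omega
      have e2 : m = (m - x) + x := by omega
      rw [e1, pow_add, ← he, ← pow_add, ← e2]
    have hk : ∀ k, (n : ZMod c.natAbs) ^ (m + (y - x) * k) = (n : ZMod c.natAbs) ^ m := by
      intro k
      induction k with
      | zero => simp
      | succ k ih =>
        rw [Nat.mul_succ, ← Nat.add_assoc, step _ (by omega), ih]
    have h1 : ((n ^ (m + (y - x) * k) - n ^ m : ℤ) : ZMod c.natAbs) = 0 := by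
      push_cast
      rw [hk k, sub_self]
    rw [ZMod.intCast_zmod_eq_zero_iff_dvd] at h1
    exact Int.natAbs_dvd.1 h1
  rcases lt_or_gt_of_ne (fun h => hxy (Fin.ext h) : (x : ℕ) ≠ (y : ℕ)) with h | h
  · exact main x y h (by have := y.2; omega) hf
  · exact main y x h (by have := x.2; omega) hf.symm

/-- the case of divisibility as polynomials -/
theorem small_exact {n : ℤ} (hn : 2 ≤ |n|) {p r a : ℤ[X]} {c : ℤ} (hc : c ≠ 0) {H D : ℕ}
    (hp : p ≠ 0) (hb : Bd p H D) (hcr : C c * r = p * a) {m0 : ℕ} (h : Sv n p r m0) :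
    ∃ m ≤ D * H + 2 * c.natAbs + 1, Sv n p r m := by
  by_cases hm0 : m0 ≤ D * H + 2 * c.natAbs + 1
  · exact ⟨m0, hm0, h⟩
  push Not at hm0
  obtain ⟨u, T, hu, hT1, hT, hper⟩ := period n c hc
  obtain ⟨M0, hM0⟩ : ∃ M0, M0 = D * H + c.natAbs + 1 := ⟨_, rfl⟩
  obtain ⟨m1, hm1⟩ : ∃ m1, m1 = M0 + (m0 - M0) % T := ⟨_, rfl⟩
  have hlt : (m0 - M0) % T < T := Nat.mod_lt _ hT1
  have e0 : m0 = m1 + T * ((m0 - M0) / T) := by
    have := Nat.mod_add_div (m0 - M0) T
    omega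
  refine ⟨m1, by omega, ?_⟩
  obtain ⟨j, hj⟩ := h
  have hN : 1 ≤ |n ^ m0| := by
    have := lt_abs_pow hn m0
    have h0 : (0 : ℤ) ≤ (m0 : ℤ) := Int.natCast_nonneg _
    linarith
  have hne : p.eval (n ^ m0) ≠ 0 := by
    refine eval_ne_zero hp hb hN ?_
    refine lt_of_le_of_lt ?_ (lt_abs_pow hn m0)
    have : D * H ≤ m0 := by omega
    exact_mod_cast this
  have hcr' : ∀ N : ℤ, c * r.eval N = p.eval N * a.eval N := by
    intro N
    have := congrArg (eval N) hcr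
    simpa using this
  obtain ⟨z, hz⟩ := hj
  have h1 : c ∣ n ^ j * a.eval (n ^ m0) := by
    refine ⟨z, ?_⟩
    apply mul_left_cancel₀ hne
    calc p.eval (n ^ m0) * (n ^ j * a.eval (n ^ m0)) =
        n ^ j * (p.eval (n ^ m0) * a.eval (n ^ m0)) := by ring
      _ = n ^ j * (c * r.eval (n ^ m0)) := by rw [hcr']
      _ = c * (n ^ j * r.eval (n ^ m0)) := by ring
      _ = c * (p.eval (n ^ m0) * z) := by rw [hz]
      _ = p.eval (n ^ m0) * (c * z) := by ring
  have h2 : c ∣ a.eval (n ^ m0) - a.eval (n ^ m1) := by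
    refine dvd_trans ?_ (sub_dvd_eval_sub (n ^ m0) (n ^ m1) a)
    have := hper m1 ((m0 - M0) / T) (by omega)
    rwa [← e0] at this
  have h3 : c ∣ n ^ j * a.eval (n ^ m1) := by
    have h4 := dvd_sub h1 (Dvd.dvd.mul_left h2 (n ^ j))
    have e : n ^ j * a.eval (n ^ m0) - n ^ j * (a.eval (n ^ m0) - a.eval (n ^ m1)) =
      n ^ j * a.eval (n ^ m1) := by ring
    rwa [e] at h4
  obtain ⟨z', hz'⟩ := h3
  refine ⟨j, z', ?_⟩
  apply mul_left_cancel₀ hc
  calc c * (n ^ j * r.eval (n ^ m1)) = n ^ j * (c * r.eval (n ^ m1)) := by ring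
    _ = n ^ j * (p.eval (n ^ m1) * a.eval (n ^ m1)) := by rw [hcr']
    _ = p.eval (n ^ m1) * (n ^ j * a.eval (n ^ m1)) := by ring
    _ = p.eval (n ^ m1) * (c * z') := by rw [hz']
    _ = c * (p.eval (n ^ m1) * z') := by ring

/-- the case of no divisibility as polynomials -/
theorem small_inexact {n : ℤ} (hn : 2 ≤ |n|) {p r a s : ℤ[X]} {c : ℤ} {H K D : ℕ} (hH : 1 ≤ H)
    (hp : p ≠ 0) (hp0 : p.coeff 0 ≠ 0) (hb : Bd p H D) (hcr : C c * r = p * a + s)
    (hs : s ≠ 0) (hsd : s.natDegree < p.natDegree) (hsb : ∀ i, |s.coeff i| ≤ (K : ℤ)) {m : ℕ}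
    (h : Sv n p r m) : m ≤ D * H * (1 + K) + H := by
  by_contra hm
  push Not at hm
  obtain ⟨j, hj⟩ := h
  have hmN := lt_abs_pow hn m
  obtain ⟨N, hN⟩ : ∃ N, N = n ^ m := ⟨_, rfl⟩
  rw [← hN] at hj hmN
  have hN1 : 1 ≤ |N| := by
    have h0 : (0 : ℤ) ≤ (m : ℤ) := Int.natCast_nonneg _
    linarith
  have hmZ : ((D * H * (1 + K) + H : ℕ) : ℤ) < m := by exact_mod_cast hm
  push_cast at hmZ
  have hDH : (0 : ℤ) ≤ (D : ℤ) * H := by positivity
  have hK0 : (0 : ℤ) ≤ K := Int.natCast_nonneg _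
  have hH0 : (1 : ℤ) ≤ H := by exact_mod_cast hH
  have hcr' : c * r.eval N = p.eval N * a.eval N + s.eval N := by
    have := congrArg (eval N) hcr
    simpa using this
  have h1 : p.eval N ∣ n ^ j * s.eval N := by
    have h2 : p.eval N ∣ c * (n ^ j * r.eval N) := Dvd.dvd.mul_left hj c
    have h3 : p.eval N ∣ n ^ j * (p.eval N * a.eval N) :=
      Dvd.dvd.mul_left (Dvd.intro _ rfl) _
    have h4 := dvd_sub h2 h3
    have e : c * (n ^ j * r.eval N) - n ^ j * (p.eval N * a.eval N) = n ^ j * s.eval N := by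
      have : c * (n ^ j * r.eval N) = n ^ j * (c * r.eval N) := by ring
      rw [this, hcr']; ring
    rwa [e] at h4
  have hp0b : |p.coeff 0| ≤ H := hb.1 0
  have h2 : p.eval N ∣ p.coeff 0 * s.eval N := by
    refine npart (n := n) (m := m) (j := j) ?_ hp0 ?_ h1
    · rw [← hN]
      have h5 := sub_dvd_eval_sub N 0 p
      rw [sub_zero, ← coeff_zero_eq_eval_zero] at h5
      exact h5
    · refine lt_of_le_of_lt hp0b ?_
      have h6 : (m : ℤ) < 2 ^ m := by exact_mod_cast Nat.lt_two_pow_self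
      nlinarith [mul_nonneg hDH (by linarith : (0 : ℤ) ≤ 1 + K)]
  have hs0 : s.eval N ≠ 0 := by
    refine eval_ne_zero hs (h := (K : ℤ)) (D := D) ⟨hsb, hsd.le.trans hb.2⟩ hN1 ?_
    have h7 : (D : ℤ) * K ≤ D * H * (1 + K) := by
      have : (D : ℤ) * K * 1 ≤ (D : ℤ) * (1 + K) * H :=
        mul_le_mul (by nlinarith [Int.natCast_nonneg D]) hH0 (by norm_num) (by positivity)
      nlinarith
    linarith
  have h3 : |p.eval N| ≤ |p.coeff 0 * s.eval N| :=
    Int.le_of_dvd (abs_pos.2 (mul_ne_zero hp0 hs0)) ((abs_dvd_abs _ _).2 h2)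
  obtain ⟨e, he⟩ : ∃ e, p.natDegree = e + 1 := ⟨p.natDegree - 1, by omega⟩
  have h4 := le_eval hp hb.1 he hN1
  have h5 := eval_le hsb (by rw [he] at hsd; exact hsd) hN1
  rw [Nat.add_sub_cancel] at h5
  push_cast at h5
  have hpow : 0 < |N| ^ e := by positivity
  have h6 : |p.coeff 0 * s.eval N| ≤ H * ((e + 1) * K * |N| ^ e) := by
    rw [abs_mul]
    exact mul_le_mul hp0b h5 (abs_nonneg _) (by linarith)
  have h7 : |N| ^ e * (|N| - (e + 1) * H) ≤ |N| ^ e * (H * ((e + 1) * K)) := by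
    calc _ ≤ _ := h4
      _ ≤ _ := h3
      _ ≤ _ := h6
      _ = _ := by ring
  have h8 := le_of_mul_le_mul_left h7 hpow
  have h9 : ((e : ℤ) + 1) ≤ D := by
    have : e + 1 ≤ D := he ▸ hb.2
    exact_mod_cast this
  have h10 : ((e : ℤ) + 1) * (H * (1 + K)) ≤ D * (H * (1 + K)) :=
    mul_le_mul_of_nonneg_right h9 (by positivity)
  nlinarith

theorem exists_shift {p : ℤ[X]} (hp : p ≠ 0) {h : ℤ} {D : ℕ} (hb : Bd p h D) :
    ∃ (i : ℕ) (q : ℤ[X]), p = X ^ i * q ∧ q.coeff 0 ≠ 0 ∧ Bd q h D := by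
  have h1 : X ^ p.natTrailingDegree ∣ p := by
    rw [X_pow_dvd_iff]
    intro d hd
    exact coeff_eq_zero_of_lt_natTrailingDegree hd
  have htc : p.coeff p.natTrailingDegree ≠ 0 := trailingCoeff_nonzero_iff_nonzero.2 hp
  generalize p.natTrailingDegree = t at h1 htc
  obtain ⟨q, hq⟩ := h1
  have hc : ∀ j, q.coeff j = p.coeff (j + t) := by
    intro j
    rw [hq, coeff_X_pow_mul]
  have hq0 : q ≠ 0 := by
    rintro rfl
    rw [mul_zero] at hq
    exact hp hq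
  refine ⟨_, q, hq, ?_, ?_, ?_⟩
  · rw [hc, zero_add]
    exact htc
  · intro j; rw [hc]; exact hb.1 _
  · have : p.natDegree = t + q.natDegree := by
      rw [hq, natDegree_mul (pow_ne_zero _ X_ne_zero) hq0, natDegree_X_pow]
    have := hb.2
    omega

theorem small {n : ℤ} (hn : n ≠ 0) {p r : ℤ[X]} {D H : ℕ} (hH : 1 ≤ H) (hp : Bd p H D)
    (hr : Bd r H D) {m0 : ℕ} (h : Sv n p r m0) : ∃ m ≤ BB D H, Sv n p r m := by
  have hcase : |n| = 1 ∨ 2 ≤ |n| := by
    have := Int.one_le_abs hn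
    omega
  rcases hcase with h1 | hn2
  · refine ⟨m0 % 2, ?_, ?_⟩
    · unfold BB
      have := Nat.mod_lt m0 (by norm_num : 2 > 0)
      omega
    · have e2 : n ^ 2 = 1 := by rw [← sq_abs, h1]; norm_num
      have e : n ^ (m0 % 2) = n ^ m0 := by
        conv_rhs => rw [← Nat.mod_add_div m0 2, pow_add, pow_mul, e2, one_pow, mul_one]
      unfold Sv
      rw [e]
      exact h
  have hK : ((((2 * H) ^ (D + 1) * H : ℕ)) : ℤ) = (2 * (H : ℤ)) ^ (D + 1) * H := by push_cast; rfl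
  by_cases hp0 : p = 0
  · subst hp0
    obtain ⟨j, hj⟩ := h
    rw [eval_zero, zero_dvd_iff, mul_eq_zero] at hj
    have hr0 : r.eval (n ^ m0) = 0 := hj.resolve_left (pow_ne_zero _ hn)
    by_cases hrz : r = 0
    · subst hrz
      exact ⟨0, Nat.zero_le _, 0, by simp⟩
    · refine ⟨m0, ?_, 0, by rw [hr0]; simp⟩
      by_contra hlt
      push Not at hlt
      have hN := lt_abs_pow hn2 m0
      refine eval_ne_zero hrz hr ?_ ?_ hr0
      · have h0 : (0 : ℤ) ≤ (m0 : ℤ) := Int.natCast_nonneg _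
        linarith
      · refine lt_of_le_of_lt ?_ hN
        have : D * H ≤ m0 := by
          unfold BB at hlt
          omega
        exact_mod_cast this
  · obtain ⟨i, q, hpq, hq0, hq⟩ := exists_shift hp0 hp
    have hqne : q ≠ 0 := by rintro rfl; simp at hq0
    have hiff : ∀ m, Sv n p r m ↔ Sv n q r m := by
      intro m
      constructor
      · rintro ⟨j, hj⟩
        refine ⟨j, dvd_trans ?_ hj⟩
        rw [hpq, eval_mul]
        exact Dvd.intro_left _ rfl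
      · rintro ⟨j, hj⟩
        refine ⟨m * i + j, ?_⟩
        rw [hpq, eval_mul, eval_pow, eval_X, ← pow_mul, pow_add, mul_assoc]
        exact mul_dvd_mul_left _ hj
    simp only [hiff] at h ⊢
    have hH1 : (1 : ℤ) ≤ H := by exact_mod_cast hH
    obtain ⟨c, a, s, hc, hcb, hcr, hsd, hsb⟩ := pdiv q hqne H hq.1 hH1 (D + 1) r H
      (Nat.lt_succ_of_le hr.2) hr.1
    have hcb' : c.natAbs ≤ H ^ (D + 1) := by
      have : (c.natAbs : ℤ) ≤ ((H ^ (D + 1) : ℕ) : ℤ) := by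
        rw [Int.natCast_natAbs]; push_cast; exact hcb
      exact_mod_cast this
    by_cases hs0 : s = 0
    · rw [hs0, add_zero] at hcr
      obtain ⟨m, hm, hmS⟩ := small_exact hn2 hc hqne hq hcr h
      refine ⟨m, ?_, hmS⟩
      unfold BB
      have : 0 ≤ D * H * (1 + (2 * H) ^ (D + 1) * H) := Nat.zero_le _
      omega
    · rw [← hK] at hsb
      have := small_inexact hn2 hH hqne hq0 hq hcr hs0 (hsd.resolve_left hs0) hsb h
      refine ⟨m0, ?_, h⟩
      unfold BB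
      have h3 : H ≤ H ^ (D + 1) := Nat.le_self_pow (by omega) _
      omega

end Pool.Agent.Q6.BS
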