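import Pool.Agent.Q6.BS.Small

/-! One-variable words over the two generators `a`, `t`, and their values as affine maps. -/

set_option autoImplicit false
set_option maxHeartbeats 400000

open Polynomial

namespace Pool.Agent.Q6.BS

/-- words in `a` (`inl 0`), `t` (`inl 1`), the variable `x` (`inr ()`) and their inverses -/
abbrev Wd : Type := List ((Fin 2 ⊕ Unit) × Bool)

section run

variable {A : Type*} [CommRing A]

/-- one letter: the state `(S, P, R)` stands for the function `q ↦ (P q + R) / S` -/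
def step (n N : A) (c : (Fin 2 ⊕ Unit) × Bool) (z : A × A × A) : A × A × A :=
  match c with
  | (Sum.inl i, true) =>
    if i = 0 then (n * N * z.1, n * N * z.2.1, n * N * z.1 + n * N * z.2.2)
    else (n * N * z.1, n * (n * N * z.2.1), n * (n * N * z.2.2))
  | (Sum.inl i, false) =>
    if i = 0 then (n * N * z.1, n * N * z.2.1, -(n * N * z.1) + n * N * z.2.2)
    else (n * N * z.1, N * z.2.1, N * z.2.2)
  | (Sum.inr _, true) =>
    (n * N * z.1, n * N * z.1 + N * (n * N * z.2.1), N * (n * N * z.2.2))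
  | (Sum.inr _, false) => (n * N * z.1, -(n * z.1) + n * z.2.1, n * z.2.2)

/-- the state of a word -/
def run (n N : A) (w : Wd) : A × A × A := w.foldr (step n N) (1, 0, 0)

theorem run_nil (n N : A) : run n N [] = (1, 0, 0) := rfl
theorem run_cons (n N : A) (c : (Fin 2 ⊕ Unit) × Bool) (w : Wd) :
    run n N (c :: w) = step n N c (run n N w) := rfl

theorem step_map {B : Type*} [CommRing B] (f : A →+* B) (n N : A) (c : (Fin 2 ⊕ Unit) × Bool)
    (z : A × A × A) : step (f n) (f N) c (f z.1, f z.2.1, f z.2.2) =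
      (f (step n N c z).1, f (step n N c z).2.1, f (step n N c z).2.2) := by
  obtain ⟨c, b⟩ := c
  rcases c with i | i <;> rcases b with _ | _
  · by_cases hi : i = 0 <;> simp [step, hi]
  · by_cases hi : i = 0 <;> simp [step, hi]
  · simp [step]
  · simp [step]

theorem run_map {B : Type*} [CommRing B] (f : A →+* B) (n N : A) (w : Wd) :
    run (f n) (f N) w = (f (run n N w).1, f (run n N w).2.1, f (run n N w).2.2) := by
  induction w with
  | nil => simp [run_nil]
  | cons c w ih => rw [run_cons, run_cons, ih, step_map]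

theorem run_fst (n N : A) (w : Wd) : (run n N w).1 = (n * N) ^ w.length := by
  induction w with
  | nil => simp [run_nil]
  | cons c w ih =>
    rw [run_cons, List.length_cons, pow_succ', ← ih]
    obtain ⟨c, b⟩ := c
    rcases c with i | i <;> rcases b with _ | _
    · by_cases hi : i = 0 <;> simp [step, hi]
    · by_cases hi : i = 0 <;> simp [step, hi]
    · simp [step]
    · simp [step]

end run

/-- the exponent of `t` is `(ee w).1 + (ee w).2 * m` for `x = (q, m)` -/
def ee (w : Wd) : ℤ × ℤ :=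
  w.foldr (fun c z => match c with
    | (Sum.inl i, b) => if i = 0 then z else (if b then z.1 + 1 else z.1 - 1, z.2)
    | (Sum.inr _, b) => (z.1, if b then z.2 + 1 else z.2 - 1)) (0, 0)

theorem ee_nil : ee [] = (0, 0) := rfl

theorem ee_bound (w : Wd) : |(ee w).1| ≤ w.length := by
  induction w with
  | nil => simp [ee_nil]
  | cons c w ih =>
    obtain ⟨c, b⟩ := c
    rw [List.length_cons]
    push_cast
    rw [abs_le] at ih ⊢
    rcases c with i | i
    · show _ ≤ (if i = 0 then ee w else (if b then (ee w).1 + 1 else (ee w).1 - 1, (ee w).2)).1 ∧ _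
      by_cases hi : i = 0
      · simp only [hi, if_true]
        constructor <;> [linarith [ih.1]; (show (ee w).1 ≤ _; linarith [ih.2])]
      · simp only [hi, if_false]
        rcases b with _ | _
        · constructor
          · show _ ≤ (ee w).1 - 1; linarith [ih.1]
          · show (if i = 0 then ee w else ((ee w).1 - 1, (ee w).2)).1 ≤ _
            rw [if_neg hi]; show (ee w).1 - 1 ≤ _; linarith [ih.2]
        · constructor
          · show _ ≤ (ee w).1 + 1; linarith [ih.1]
          · show (if i = 0 then ee w else ((ee w).1 + 1, (ee w).2)).1 ≤ _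
            rw [if_neg hi]; show (ee w).1 + 1 ≤ _; linarith [ih.2]
    · exact ⟨by show _ ≤ (ee w).1; linarith [ih.1], by show (ee w).1 ≤ _; linarith [ih.2]⟩

/-- the polynomials of a word have small coefficients -/
theorem run_bound (n : ℤ) (hn : n ≠ 0) (w : Wd) :
    Bd (run (C n) (X : ℤ[X]) w).1 ((2 * n ^ 2) ^ w.length) (2 * w.length) ∧
    Bd (run (C n) (X : ℤ[X]) w).2.1 ((2 * n ^ 2) ^ w.length) (2 * w.length) ∧
    Bd (run (C n) (X : ℤ[X]) w).2.2 ((2 * n ^ 2) ^ w.length) (2 * w.length) := by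
  have h1 : 1 ≤ |n| := Int.one_le_abs hn
  have h2 : |n| ≤ n ^ 2 := by rw [← sq_abs]; nlinarith
  have h3 : |n| * |n| = n ^ 2 := by rw [← sq_abs]; ring
  induction w with
  | nil =>
    rw [run_nil]
    refine ⟨⟨fun i => ?_, by simp⟩, ⟨fun i => by simp, by simp⟩, ⟨fun i => by simp, by simp⟩⟩
    rw [coeff_one]
    split_ifs <;> simp
  | cons c w ih =>
    obtain ⟨hS, hP, hR⟩ := ih
    have hh := hS.nonneg
    rw [run_cons, List.length_cons]
    generalize run (C n) (X : ℤ[X]) w = z at hS hP hR ⊢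
    obtain ⟨S, P, R⟩ := z
    simp only at hS hP hR
    have e1 : (2 * n ^ 2) ^ (w.length + 1) = n ^ 2 * (2 * n ^ 2) ^ w.length +
      n ^ 2 * (2 * n ^ 2) ^ w.length := by rw [pow_succ]; ring
    rw [e1]
    generalize (2 * n ^ 2) ^ w.length = h at hS hP hR hh ⊢
    have hle : |n| * h ≤ n ^ 2 * h := mul_le_mul_of_nonneg_right h2 hh
    have h0 : 0 ≤ n ^ 2 * h := by positivity
    have hnX : ∀ {q : ℤ[X]}, Bd q h (2 * w.length) → Bd (C n * X * q) (n ^ 2 * h) (2 * w.length + 1) := by
      intro q hq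
      have := hq.Xmul.Cmul n
      rw [← mul_assoc] at this
      exact this.mono hle le_rfl
    have hnnX : ∀ {q : ℤ[X]}, Bd q h (2 * w.length) →
        Bd (C n * (C n * X * q)) (n ^ 2 * h) (2 * w.length + 1) := by
      intro q hq
      have := (hq.Xmul.Cmul n).Cmul n
      rw [← mul_assoc (C n) X q] at this
      refine this.mono (le_of_eq ?_) le_rfl
      rw [← mul_assoc, h3]
    have hXnX : ∀ {q : ℤ[X]}, Bd q h (2 * w.length) →
        Bd (X * (C n * X * q)) (n ^ 2 * h) (2 * w.length + 2) := fun hq => (hnX hq).Xmul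
    have hn' : ∀ {q : ℤ[X]}, Bd q h (2 * w.length) → Bd (C n * q) (n ^ 2 * h) (2 * w.length) :=
      fun hq => (hq.Cmul n).mono hle le_rfl
    have hX : ∀ {q : ℤ[X]}, Bd q h (2 * w.length) → Bd (X * q) (n ^ 2 * h) (2 * w.length + 1) :=
      fun hq => hq.Xmul.mono (le_mul_of_one_le_left hh (h1.trans h2)) le_rfl
    have up : ∀ {q : ℤ[X]} {d : ℕ}, Bd q (n ^ 2 * h) d → d ≤ 2 * w.length + 2 →
        Bd q (n ^ 2 * h + n ^ 2 * h) (2 * (w.length + 1)) :=
      fun hq hd => hq.mono (by linarith) (by omega)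
    have up2 : ∀ {q r : ℤ[X]} {d d' : ℕ}, Bd q (n ^ 2 * h) d → Bd r (n ^ 2 * h) d' →
        d ≤ 2 * w.length + 2 → d' ≤ 2 * w.length + 2 →
        Bd (q + r) (n ^ 2 * h + n ^ 2 * h) (2 * (w.length + 1)) :=
      fun hq hr hd hd' => (hq.mono le_rfl (by omega)).add (hr.mono le_rfl (by omega))
    obtain ⟨c, b⟩ := c
    rcases c with i | i <;> rcases b with _ | _
    · by_cases hi : i = 0
      · simp only [step, hi, if_true]
        exact ⟨up (hnX hS) (by omega), up (hnX hP) (by omega),
          up2 (hnX hS).neg (hnX hR) (by omega) (by omega)⟩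
      · simp only [step, hi, if_false]
        exact ⟨up (hnX hS) (by omega), up (hX hP) (by omega), up (hX hR) (by omega)⟩
    · by_cases hi : i = 0
      · simp only [step, hi, if_true]
        exact ⟨up (hnX hS) (by omega), up (hnX hP) (by omega),
          up2 (hnX hS) (hnX hR) (by omega) (by omega)⟩
      · simp only [step, hi, if_false]
        exact ⟨up (hnX hS) (by omega), up (hnnX hP) (by omega), up (hnnX hR) (by omega)⟩
    · simp only [step]
      exact ⟨up (hnX hS) (by omega), up2 (hn' hS).neg (hn' hP) (by omega) (by omega),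
        up (hn' hR) (by omega)⟩
    · simp only [step]
      exact ⟨up (hnX hS) (by omega), up2 (hnX hS) (hXnX hP) (by omega) (by omega),
        up (hXnX hR) (by omega)⟩

/-- the condition at `m`: the word has value `1` at some `(q, m)` -/
def Chk (n : ℤ) (w : Wd) (m : ℕ) : Prop :=
  (ee w).1 + (ee w).2 * m = 0 ∧ ∃ j : ℕ, (run n (n ^ m) w).2.1 ∣ n ^ j * (run n (n ^ m) w).2.2

/-- the bound for a word of length `L` -/
def bnd (n : ℤ) (L : ℕ) : ℕ := BB (2 * L) ((2 * n.natAbs ^ 2) ^ L) + L

theorem chk_small {n : ℤ} (hn : n ≠ 0) {w : Wd} {m0 : ℕ} (h : Chk n w m0) :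
    ∃ m ≤ bnd n w.length, Chk n w m := by
  obtain ⟨h1, h2⟩ := h
  by_cases he : (ee w).2 = 0
  · have hev : ∀ m : ℕ, run n (n ^ m) w = ((run (C n) (X : ℤ[X]) w).1.eval (n ^ m),
        (run (C n) (X : ℤ[X]) w).2.1.eval (n ^ m), (run (C n) (X : ℤ[X]) w).2.2.eval (n ^ m)) := by
      intro m
      have := run_map (evalRingHom (n ^ m)) (C n) (X : ℤ[X]) w
      simpa using this
    have hb := run_bound n hn w
    have hnn : (n.natAbs : ℤ) ^ 2 = n ^ 2 := by rw [Int.natCast_natAbs, sq_abs]
    have hH : (((2 * n.natAbs ^ 2) ^ w.length : ℕ) : ℤ) = (2 * n ^ 2) ^ w.length := by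
      push_cast; rw [← Int.natCast_natAbs, hnn]
    rw [← hH] at hb
    have hsv : ∀ m, Sv n (run (C n) (X : ℤ[X]) w).2.1 (run (C n) (X : ℤ[X]) w).2.2 m ↔
        ∃ j : ℕ, (run n (n ^ m) w).2.1 ∣ n ^ j * (run n (n ^ m) w).2.2 := by
      intro m
      rw [hev]; rfl
    have hpos : 1 ≤ (2 * n.natAbs ^ 2) ^ w.length := by
      have : 0 < n.natAbs := Int.natAbs_pos.2 hn
      exact Nat.one_le_pow _ _ (by positivity)
    obtain ⟨m, hm, hmS⟩ := small hn hpos hb.2.1 hb.2.2 ((hsv m0).2 h2)
    refine ⟨m, by unfold bnd; omega, ?_, (hsv m).1 hmS⟩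
    rw [he] at h1 ⊢
    linarith
  · refine ⟨m0, ?_, h1, h2⟩
    have h3 : (m0 : ℤ) ≤ |(ee w).2 * m0| := by
      rw [abs_mul, Nat.abs_cast]
      exact le_mul_of_one_le_left (Int.natCast_nonneg _) (Int.one_le_abs he)
    have h4 : |(ee w).2 * m0| = |(ee w).1| := by
      have : (ee w).2 * m0 = -(ee w).1 := by linarith
      rw [this, abs_neg]
    have h5 := ee_bound w
    unfold bnd
    have : (m0 : ℤ) ≤ w.length := by linarith
    omega

end Pool.Agent.Q6.BS
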